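import Pool.Agent.Helper80.LR.Spec

/-!
LR-8: lower bound for the threshold.
-/

set_option autoImplicit false
open Classical Filter Topology

namespace Pool.Agent.Helper39.LR

open Pool.Agent.Helper80.LR

/-- the sections of a set of triples -/
noncomputable def secEquiv (n : ℕ) :
    Finset (Fin n × Fin n × Fin n) ≃ (Fin n × Fin n → Finset (Fin n)) where
  toFun S a := Finset.univ.filter (fun s => (a.1, a.2, s) ∈ S)
  invFun T := Finset.univ.filter (fun x => x.2.2 ∈ T (x.1, x.2.1))
  left_inv S := by ext ⟨i, j, s⟩; simp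
  right_inv T := by funext ⟨i, j⟩; ext s; simp

/-- weight as a product -/
theorem weight_prod {X : Type} [Fintype X] (p : ℝ) (S : Finset X) :
    p ^ S.card * (1 - p) ^ (Fintype.card X - S.card) = ∏ x : X, (if x ∈ S then p else 1 - p) := by
  rw [Finset.prod_ite, Finset.prod_const, Finset.prod_const]
  congr 2
  · congr 1
    ext x; simp
  · rw [← Finset.card_compl]
    congr 1
    ext x; simp

theorem sum_w1 (n : ℕ) (p : ℝ) :
    ∑ T : Finset (Fin n), ∏ s : Fin n, (if s ∈ T then p else 1 - p) = 1 := by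
  have h := Finset.sum_pow_mul_eq_add_pow p (1 - p) (Finset.univ : Finset (Fin n))
  rw [Finset.powerset_univ, Finset.card_univ, add_sub_cancel, one_pow] at h
  calc ∑ T : Finset (Fin n), ∏ s : Fin n, (if s ∈ T then p else 1 - p)
      = ∑ T : Finset (Fin n), p ^ T.card * (1 - p) ^ (Fintype.card (Fin n) - T.card) :=
        Finset.sum_congr rfl fun T _ => by rw [weight_prod p T]; congr!
    _ = 1 := h

theorem sum_w1_nonempty (n : ℕ) (p : ℝ) :
    ∑ T : Finset (Fin n), (∏ s : Fin n, (if s ∈ T then p else 1 - p)) *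
      (if T.Nonempty then 1 else 0) = 1 - (1 - p) ^ n := by
  have h := sum_w1 n p
  have h1 : ∀ T : Finset (Fin n), (∏ s : Fin n, (if s ∈ T then p else 1 - p)) *
      (if T.Nonempty then (1:ℝ) else 0) = (∏ s : Fin n, (if s ∈ T then p else 1 - p)) -
        (if T = ∅ then (1 - p) ^ n else 0) := by
    intro T
    by_cases hT : T = ∅
    · subst hT; simp
    · rw [if_pos (Finset.nonempty_iff_ne_empty.mpr hT), if_neg hT]; ring
  simp only [h1]
  rw [Finset.sum_sub_distrib, h, Finset.sum_ite_eq' Finset.univ ∅]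
  simp

/-- the exact probability that every pair `(i, j)`, `i < k`, is covered -/
theorem prRect_le (n k : ℕ) (p : ℝ) (h0 : 0 ≤ p) (h1 : p ≤ 1) (hk : k ≤ n) :
    prRect n k p ≤ (1 - (1 - p) ^ n) ^ (k * n) := by
  set g : Fin n × Fin n → Finset (Fin n) → ℝ := fun a T =>
    (∏ s : Fin n, (if s ∈ T then p else 1 - p)) * (if ((a.1 : ℕ) < k → T.Nonempty) then 1 else 0)
    with hg
  have hprod : ∏ a : Fin n × Fin n, ∑ T : Finset (Fin n), g a T = (1 - (1 - p) ^ n) ^ (k * n) := by
    have h2 : ∀ a : Fin n × Fin n, ∑ T : Finset (Fin n), g a T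
        = if (a.1 : ℕ) < k then (1 - (1 - p) ^ n) else 1 := by
      intro a
      by_cases ha : (a.1 : ℕ) < k
      · simp only [hg, ha, true_imp_iff, if_true]
        exact sum_w1_nonempty n p
      · simp only [hg, ha, false_imp_iff, if_true, mul_one, if_false]
        exact sum_w1 n p
    rw [Finset.prod_congr rfl fun a _ => h2 a, Fintype.prod_prod_type]
    have h5 : ∀ i : Fin n, ∏ _j : Fin n, (if (i : ℕ) < k then (1 - (1 - p) ^ n) else 1)
        = (if (i : ℕ) < k then (1 - (1 - p) ^ n) else 1) ^ n := by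
      intro i
      rw [Finset.prod_const, Finset.card_univ, Fintype.card_fin]
    rw [Finset.prod_congr rfl fun i _ => h5 i, Finset.prod_pow, Finset.prod_ite,
      Finset.prod_const, Finset.prod_const_one, mul_one, ← pow_mul]
    have h6 : (Finset.univ.filter (fun i : Fin n => (i : ℕ) < k)).card = k := by
      rw [Fin.card_filter_val_lt]
      exact min_eq_right hk
    rw [h6]
  have hbig : ∑ S : Finset (Fin n × Fin n × Fin n), ∏ a : Fin n × Fin n, g a (secEquiv n S a)
      = (1 - (1 - p) ^ n) ^ (k * n) := by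
    rw [← hprod, Finset.prod_univ_sum, Fintype.piFinset_univ]
    exact Fintype.sum_equiv (secEquiv n) _ _ (fun S => rfl)
  rw [← hbig, prRect]
  have hg0 : ∀ a T, 0 ≤ g a T := by
    intro a T
    refine mul_nonneg (Finset.prod_nonneg fun s _ => ?_) ?_
    · split_ifs <;> linarith
    · split_ifs <;> norm_num
  refine le_trans (Finset.sum_le_sum (g := fun S => ∏ a : Fin n × Fin n, g a (secEquiv n S a))
    fun S hS => ?_) (Finset.sum_le_sum_of_subset_of_nonneg (Finset.filter_subset _ _)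
      fun S _ _ => Finset.prod_nonneg fun a _ => hg0 _ _)
  simp only [Finset.mem_filter, Finset.mem_univ, true_and] at hS
  obtain ⟨L, -, -, hL⟩ := hS
  have h3 : n ^ 3 = Fintype.card (Fin n × Fin n × Fin n) := by
    simp; ring
  rw [h3, weight_prod, Fintype.prod_prod_type, Fintype.prod_prod_type]
  refine le_of_eq (Finset.prod_congr rfl fun i _ => ?_)
  rw [Fintype.prod_prod_type]
  refine Finset.prod_congr rfl fun j _ => ?_
  have h4 : ((i : ℕ) < k → (secEquiv n S (i, j)).Nonempty) := by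
    intro hi
    exact ⟨L i j, by simpa [secEquiv] using hL i j hi⟩
  simp only [hg]
  rw [if_pos h4, mul_one]
  refine Finset.prod_congr rfl fun s _ => ?_
  simp [secEquiv]

theorem prRect_nonneg (n k : ℕ) (p : ℝ) (h0 : 0 ≤ p) (h1 : p ≤ 1) : 0 ≤ prRect n k p :=
  Finset.sum_nonneg fun S _ => mul_nonneg (pow_nonneg h0 _) (pow_nonneg (by linarith) _)

/-- the analytic estimate -/
theorem estimate (n k : ℕ) (p ε : ℝ) (hn : 1 ≤ n) (h1k : 1 ≤ k) (hk : k ≤ n) (hε : 0 < ε)
    (h0 : 0 ≤ p) (hp : p ≤ (1 - ε) * Real.log ((k : ℝ) * n) / n) (hlog : 4 * Real.log n ^ 2 ≤ n)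
    (hlog2 : 4 * Real.log n ≤ n) :
    (1 - (1 - p) ^ n) ^ (k * n) ≤ Real.exp (-Real.exp (ε * Real.log n - 2)) := by
  have hn0 : (0:ℝ) < n := by exact_mod_cast hn
  have hk0 : (0:ℝ) < k := by exact_mod_cast h1k
  have hk1 : (1:ℝ) ≤ k := by exact_mod_cast h1k
  have hn1 : (1:ℝ) ≤ n := by exact_mod_cast hn
  have hkn : (k:ℝ) ≤ n := by exact_mod_cast hk
  have hl0 : 0 ≤ Real.log n := Real.log_nonneg hn1
  have hlk : Real.log ((k : ℝ) * n) = Real.log k + Real.log n :=
    Real.log_mul hk0.ne' hn0.ne'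
  have hlk0 : 0 ≤ Real.log k := Real.log_nonneg hk1
  have hlk1 : Real.log k ≤ Real.log n := Real.log_le_log hk0 hkn
  have hpn : p * n ≤ (1 - ε) * Real.log ((k : ℝ) * n) := by
    rwa [le_div_iff₀ hn0] at hp
  have hpn2 : p * n ≤ 2 * Real.log n := by
    rw [hlk] at hpn
    nlinarith
  have hphalf : p ≤ 1 / 2 := by
    have : p * n ≤ (1 / 2) * n := by linarith
    exact le_of_mul_le_mul_right this hn0
  have hnp2 : n * p ^ 2 ≤ 1 := by
    have h5 : (p * n) ^ 2 ≤ (2 * Real.log n) ^ 2 :=
      pow_le_pow_left₀ (by positivity) hpn2 2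
    have h6 : (n * p ^ 2) * n ≤ 1 * n := by nlinarith
    exact le_of_mul_le_mul_right h6 hn0
  have h1p : 0 < 1 - p := by linarith
  have hlog1p : -p - 2 * p ^ 2 ≤ Real.log (1 - p) := by
    have h7 := Real.one_sub_inv_le_log_of_pos h1p
    refine le_trans ?_ h7
    rw [← one_div, le_sub_iff_add_le, ← le_sub_iff_add_le', div_le_iff₀ h1p]
    nlinarith [mul_nonneg h0 h0, mul_nonneg (mul_nonneg h0 h0) (by linarith : 0 ≤ 1/2 - p)]
  have hq : Real.exp (-(p * n) - 2) ≤ (1 - p) ^ n := by
    rw [← Real.exp_log h1p, ← Real.exp_nat_mul]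
    refine Real.exp_le_exp.mpr ?_
    nlinarith
  have hq1 : (1 - p) ^ n ≤ 1 := pow_le_one₀ h1p.le (by linarith)
  calc (1 - (1 - p) ^ n) ^ (k * n) ≤ (Real.exp (-(1 - p) ^ n)) ^ (k * n) := by
        refine pow_le_pow_left₀ (by linarith) ?_ _
        have := Real.add_one_le_exp (-(1 - p) ^ n)
        linarith
    _ = Real.exp (-(((k * n : ℕ) : ℝ) * (1 - p) ^ n)) := by
        rw [← Real.exp_nat_mul]; congr 1; ring
    _ ≤ Real.exp (-Real.exp (ε * Real.log n - 2)) := by
        refine Real.exp_le_exp.mpr (neg_le_neg ?_)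
        have h8 : ((k * n : ℕ) : ℝ) = Real.exp (Real.log ((k : ℝ) * n)) := by
          rw [Real.exp_log (by positivity)]; push_cast; ring
        calc Real.exp (ε * Real.log n - 2)
            ≤ Real.exp (Real.log ((k : ℝ) * n) + (-(p * n) - 2)) := by
              refine Real.exp_le_exp.mpr ?_
              rw [hlk] at hpn ⊢
              nlinarith
          _ = Real.exp (Real.log ((k : ℝ) * n)) * Real.exp (-(p * n) - 2) := Real.exp_add _ _
          _ ≤ ((k * n : ℕ) : ℝ) * (1 - p) ^ n := by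
              rw [h8]
              exact mul_le_mul_of_nonneg_left hq (Real.exp_pos _).le

theorem low : Pool.Agent.Helper80.LR.LowStmt := by
  intro k hk1 hkn ε hε p hp hpe
  have hlogsq : ∀ᶠ n : ℕ in atTop, 4 * Real.log n ^ 2 ≤ n := by
    have h := (Real.isLittleO_pow_log_id_atTop (n := 2)).bound (show (0:ℝ) < 1 / 4 by norm_num)
    have h2 := tendsto_natCast_atTop_atTop (R := ℝ) |>.eventually h
    filter_upwards [h2] with n hn
    simp only [Real.norm_eq_abs, id] at hn
    rw [abs_of_nonneg (sq_nonneg _), abs_of_nonneg (Nat.cast_nonneg n)] at hn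
    linarith
  have hlog1 : ∀ᶠ n : ℕ in atTop, 4 * Real.log n ≤ n := by
    have h := (Real.isLittleO_pow_log_id_atTop (n := 1)).bound (show (0:ℝ) < 1 / 4 by norm_num)
    have h2 := tendsto_natCast_atTop_atTop (R := ℝ) |>.eventually h
    filter_upwards [h2] with n hn
    simp only [Real.norm_eq_abs, id, pow_one] at hn
    rw [abs_of_nonneg (Nat.cast_nonneg n : (0:ℝ) ≤ (n:ℝ))] at hn
    have := le_abs_self (Real.log n)
    linarith
  have hlim : Tendsto (fun n : ℕ => Real.exp (-Real.exp (ε * Real.log n - 2))) atTop (𝓝 0) := by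
    refine Real.tendsto_exp_neg_atTop_nhds_zero.comp (Real.tendsto_exp_atTop.comp ?_)
    refine tendsto_atTop_add_const_right _ _ ?_
    exact Tendsto.const_mul_atTop hε (Real.tendsto_log_atTop.comp tendsto_natCast_atTop_atTop)
  refine squeeze_zero' (Eventually.of_forall fun n => prRect_nonneg n (k n) (p n) (hp n).1 (hp n).2)
    ?_ hlim
  filter_upwards [hkn, hpe, hlogsq, hlog1, eventually_ge_atTop 1] with n h1 h2 h3 h4 h5
  exact (prRect_le n (k n) (p n) (hp n).1 (hp n).2 h1).trans
    (estimate n (k n) (p n) ε h5 (hk1 n) h1 hε (hp n).1 h2 h3 h4)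

end Pool.Agent.Helper39.LR
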